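import Mathlib

/-!
A Tychonoff space `X`, the topological sum of a compact space and a discrete space, such that
`C_p(X)` contains a uniformly dense subspace which is monotonically monolithic (in particular
monotonically `ω`-monolithic), while `C_p(X)` contains a countable set whose closure has no network
with fewer than continuum many members; in particular `C_p(X)` is not `ω`-monolithic, hence not
monotonically `ω`-monolithic.
-/

set_option autoImplicit false

open Topology Set Cardinal

universe u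

namespace Pool.Agent.Results.MP_440a64_gt.NotMonolithic

/-- `C_p(X)`: the continuous real functions on `X`, a subspace of the product `X → ℝ`. -/
abbrev Cp (X : Type u) [TopologicalSpace X] : Type u := {f : X → ℝ // Continuous f}

/-- `D` is uniformly dense in `C_p(X)`. -/
def IsUniformlyDense {X : Type u} [TopologicalSpace X] (D : Set (Cp X)) : Prop :=
  ∀ f : Cp X, ∀ ε : ℝ, 0 < ε → ∃ g ∈ D, ∀ x : X, |f.1 x - g.1 x| < ε

/-- `N` is an external network for `F` in `Y`. -/
def IsExternalNetwork {Y : Type u} [TopologicalSpace Y] (F : Set Y) (N : Set (Set Y)) : Prop :=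
  ∀ x ∈ F, ∀ U : Set Y, IsOpen U → x ∈ U → ∃ n ∈ N, x ∈ n ∧ n ⊆ U

/-- `Y` is monotonically `ω`-monolithic. -/
def IsMonotonicallyOmegaMonolithic (Y : Type u) [TopologicalSpace Y] : Prop :=
  ∃ O : Set Y → Set (Set Y),
    (∀ A : Set Y, A.Countable → (O A).Countable ∧ IsExternalNetwork (closure A) (O A)) ∧
    (∀ A B : Set Y, A ⊆ B → B.Countable → O A ⊆ O B) ∧
    ∀ A : ℕ → Set Y, Monotone A → (∀ n, (A n).Countable) → O (⋃ n, A n) = ⋃ n, O (A n)

/-- `Y` is monotonically monolithic: the same for sets `A` of all cardinalities, with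
`|O(A)| ≤ max (|A|, ω)` and with arbitrary nonempty chains instead of increasing sequences. -/
def IsMonotonicallyMonolithic (Y : Type u) [TopologicalSpace Y] : Prop :=
  ∃ O : Set Y → Set (Set Y),
    (∀ A : Set Y, #(O A) ≤ max #A ℵ₀ ∧ IsExternalNetwork (closure A) (O A)) ∧
    (∀ A B : Set Y, A ⊆ B → O A ⊆ O B) ∧
    ∀ S : Set (Set Y), S.Nonempty → IsChain (· ⊆ ·) S → O (⋃₀ S) = ⋃ A ∈ S, O A

theorem IsMonotonicallyMonolithic.omega {Y : Type u} [TopologicalSpace Y]
    (h : IsMonotonicallyMonolithic Y) : IsMonotonicallyOmegaMonolithic Y := by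
  obtain ⟨O, h1, h2, h3⟩ := h
  refine ⟨O, fun A hA => ⟨?_, (h1 A).2⟩, fun A B hAB _ => h2 A B hAB, fun A hA _ => ?_⟩
  · have := (h1 A).1
    rw [max_eq_right (Cardinal.mk_le_aleph0_iff.2 hA)] at this
    exact Cardinal.mk_le_aleph0_iff.1 this
  · have := h3 (range A) (range_nonempty A) hA.isChain_range
    rw [sUnion_range, biUnion_range] at this
    exact this

/-- The sum of two completely regular spaces is completely regular. -/
theorem sumCR (A B : Type u) [TopologicalSpace A] [TopologicalSpace B] [CompletelyRegularSpace A]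
    [CompletelyRegularSpace B] : CompletelyRegularSpace (A ⊕ B) := by
  refine ⟨?_⟩
  intro x K hK hx
  rcases x with a | b
  · have hK' : IsClosed (Sum.inl ⁻¹' K : Set A) := hK.preimage continuous_inl
    obtain ⟨f, hf, hfa, hfK⟩ := CompletelyRegularSpace.completely_regular a _ hK' hx
    refine ⟨Sum.elim f (fun _ => 1), hf.sumElim continuous_const, by simpa using hfa, ?_⟩
    rintro (a' | b') h
    · simpa using hfK h
    · simp
  · have hK' : IsClosed (Sum.inr ⁻¹' K : Set B) := hK.preimage continuous_inr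
    obtain ⟨f, hf, hfa, hfK⟩ := CompletelyRegularSpace.completely_regular b _ hK' hx
    refine ⟨Sum.elim (fun _ => 1) f, continuous_const.sumElim hf, by simpa using hfa, ?_⟩
    rintro (a' | b') h
    · simp
    · simpa using hfK h

/-- The discrete space of size continuum. -/
def Yd : Type u := ULift.{u} (ℕ → Bool)

instance : TopologicalSpace Yd.{u} := ⊥
instance : DiscreteTopology Yd.{u} := ⟨rfl⟩

/-- The discrete set of codes: all real functions on `Yd`. -/
def Lam : Type u := Yd.{u} → ℝ

instance : TopologicalSpace Lam.{u} := ⊥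
instance : DiscreteTopology Lam.{u} := ⟨rfl⟩

/-- The counterexample space: the one-point compactification of `Lam` plus the discrete `Yd`. -/
abbrev XX : Type u := OnePoint Lam.{u} ⊕ Yd.{u}

theorem t35 : T35Space XX.{u} :=
  { (inferInstance : T0Space XX.{u}), sumCR (OnePoint Lam.{u}) Yd.{u} with }

/-- the point of `XX` given by a code -/
def pt (l : Lam.{u}) : XX.{u} := Sum.inl (OnePoint.some l)
/-- the point at infinity -/
def pinf : XX.{u} := Sum.inl OnePoint.infty

/-- the code of a continuous function: its restriction to `Yd` -/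
def code (f : Cp XX.{u}) : Lam.{u} := fun y => f.1 (Sum.inr y)

/-- the support -/
def supp (f : Cp XX.{u}) : Set Lam.{u} := {l | f.1 (pt l) ≠ f.1 pinf}

/-- the uniformly dense set -/
def DD : Set (Cp XX.{u}) := {f | code f ∈ supp f}

theorem finite_far (f : Cp XX.{u}) (ε : ℝ) (hε : 0 < ε) :
    {l : Lam.{u} | ε ≤ |f.1 (pt l) - f.1 pinf|}.Finite := by
  have hc : Continuous (fun z : OnePoint Lam.{u} => f.1 (Sum.inl z)) := f.2.comp continuous_inl
  have hopen : IsOpen {z : OnePoint Lam.{u} | |f.1 (Sum.inl z) - f.1 pinf| < ε} := by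
    have : Continuous (fun z : OnePoint Lam.{u} => |f.1 (Sum.inl z) - f.1 pinf|) :=
      (hc.sub continuous_const).abs
    exact this.isOpen_preimage _ isOpen_Iio
  have hmem : (OnePoint.infty : OnePoint Lam.{u}) ∈
      {z : OnePoint Lam.{u} | |f.1 (Sum.inl z) - f.1 pinf| < ε} := by
    show |f.1 (Sum.inl OnePoint.infty) - f.1 pinf| < ε
    simpa [pinf] using hε
  have := (OnePoint.isOpen_iff_of_mem hmem).1 hopen
  have hcomp := this.2
  have hfin := hcomp.finite_of_discrete
  refine hfin.subset ?_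
  intro l hl
  simp only [mem_ofPred_eq] at hl
  simp only [mem_compl_iff, mem_preimage, mem_ofPred_eq, not_lt]
  exact hl

theorem countable_supp (f : Cp XX.{u}) : (supp f).Countable := by
  have : supp f ⊆ ⋃ n : ℕ, {l : Lam.{u} | (1 / ((n : ℝ) + 1)) ≤ |f.1 (pt l) - f.1 pinf|} := by
    intro l hl
    have h0 : 0 < |f.1 (pt l) - f.1 pinf| := abs_pos.2 (sub_ne_zero.2 hl)
    obtain ⟨n, hn⟩ := exists_nat_one_div_lt h0
    exact mem_iUnion.2 ⟨n, hn.le⟩
  refine Countable.mono this ?_
  exact countable_iUnion fun n => (finite_far f _ (by positivity)).countable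

/-- The union of supports. -/
def CC (A : Set (DD.{u})) : Set Lam.{u} := ⋃ a ∈ A, supp a.1

theorem CC_mono {A B : Set (DD.{u})} (h : A ⊆ B) : CC A ⊆ CC B :=
  biUnion_subset_biUnion_left h

theorem mk_CC (A : Set (DD.{u})) : #(CC A) ≤ max #A ℵ₀ := by
  refine (Cardinal.mk_biUnion_le (fun a : DD.{u} => supp a.1) A).trans ?_
  refine (mul_le_max _ _).trans ?_
  refine max_le (max_le (le_max_left _ _) ?_) (le_max_right _ _)
  exact (ciSup_le' fun a => Cardinal.mk_le_aleph0_iff.2 (countable_supp _)).trans (le_max_right _ _)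

/-- basic sets of the network -/
def box (k : ℕ) (q : ℚ) (w : Lam.{u} →₀ ℚ) (g : Lam.{u}) : Set (DD.{u}) :=
  {d | code d.1 = g ∧ |d.1.1 pinf - q| ≤ 1 / ((k : ℝ) + 1) ∧
    ∀ l : Lam, |d.1.1 (pt l) - (q + w l)| ≤ 1 / ((k : ℝ) + 1)}

/-- the network operator -/
def NN (A : Set (DD.{u})) : Set (Set (DD.{u})) :=
  {n | ∃ (k : ℕ) (q : ℚ) (w : Lam.{u} →₀ ℚ) (g : Lam.{u}), g ∈ CC A ∧
    (w.support : Set Lam.{u}) ⊆ CC A ∧ n = box k q w g}

theorem mk_finsupp (C : Set Lam.{u}) :
    #{w : Lam.{u} →₀ ℚ | (w.support : Set Lam.{u}) ⊆ C} ≤ max #C ℵ₀ := by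
  have : {w : Lam.{u} →₀ ℚ | (w.support : Set Lam.{u}) ⊆ C} ⊆
      range (fun v : C →₀ ℚ => v.mapDomain (Subtype.val : C → Lam.{u})) := by
    intro w hw
    have hw' : (w.support : Set Lam.{u}) ⊆ range (Subtype.val : C → Lam.{u}) := by
      intro x hx
      exact ⟨⟨x, hw hx⟩, rfl⟩
    obtain ⟨v, hv⟩ := (Finsupp.mem_range_mapDomain_iff (Subtype.val : C → Lam.{u})
      Subtype.val_injective w).2 (by
        intro b hb
        by_contra hne
        exact hb (hw' (by simpa using hne)))
    exact ⟨v, hv⟩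
  refine (Cardinal.mk_le_mk_of_subset this).trans (Cardinal.mk_range_le.trans ?_)
  rcases isEmpty_or_nonempty C with hC | hC
  · have : Countable (C →₀ ℚ) := inferInstance
    exact (Cardinal.mk_le_aleph0_iff.2 this).trans (le_max_right _ _)
  · rw [Cardinal.mk_finsupp_lift_of_infinite']
    simp

theorem mk_NN (A : Set (DD.{u})) : #(NN A) ≤ max #A ℵ₀ := by
  have h1 := mk_finsupp (CC A)
  have h2 := mk_CC A
  have h3 : max #(CC A) ℵ₀ ≤ max #A ℵ₀ := max_le h2 (le_max_right _ _)
  set W : Set (Lam.{u} →₀ ℚ) := {w : Lam.{u} →₀ ℚ | (w.support : Set Lam.{u}) ⊆ CC A} with hW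
  have : NN A ⊆ range (fun p : (ℕ × ℚ) × (W × (CC A : Set Lam.{u})) =>
      box p.1.1 p.1.2 p.2.1.1 p.2.2.1) := by
    rintro n ⟨k, q, w, g, hg, hw, rfl⟩
    exact ⟨((k, q), (⟨w, hw⟩, ⟨g, hg⟩)), rfl⟩
  refine (Cardinal.mk_le_mk_of_subset this).trans (Cardinal.mk_range_le.trans ?_)
  have hM : ℵ₀ ≤ max #A ℵ₀ := le_max_right _ _
  have e1 : #((ℕ × ℚ) × (W × (CC A : Set Lam.{u}))) = ℵ₀ * (#W * #(CC A)) := by
    simp [Cardinal.mk_prod]
  rw [e1]
  exact Cardinal.mul_le_of_le hM hM (Cardinal.mul_le_of_le hM (h1.trans h3) h2)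


/-- the bump function at a code -/
noncomputable def bump (l : Lam.{u}) : Cp XX.{u} :=
  ⟨({pt l} : Set XX.{u}).indicator (fun _ => (1 : ℝ)), by
    have hcl : IsClopen ({pt l} : Set XX.{u}) := by
      refine ⟨isClosed_singleton, ?_⟩
      have : ({pt l} : Set XX.{u}) = Sum.inl '' (OnePoint.some '' ({l} : Set Lam.{u})) := by
        simp [pt]
      rw [this]
      exact isOpenMap_inl _ (OnePoint.isOpen_image_coe.2 (isOpen_discrete _))
    exact (continuous_const.indicator (fun x hx => by
      rw [hcl.frontier_eq] at hx; exact absurd hx (notMem_empty x)))⟩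

theorem bump_self (l : Lam.{u}) : (bump l).1 (pt l) = 1 := by
  simp [bump]

theorem bump_pinf (l : Lam.{u}) : (bump l).1 pinf = 0 := by
  simp [bump, pt, pinf]

theorem bump_inr (l : Lam.{u}) (y : Yd.{u}) : (bump l).1 (Sum.inr y) = 0 := by
  simp [bump, pt]

theorem bump_le (l : Lam.{u}) (x : XX.{u}) : |(bump l).1 x| ≤ 1 := by
  by_cases h : x = pt l
  · simp [bump, h]
  · simp [bump, h]

theorem dense : IsUniformlyDense DD.{u} := by
  intro f ε hε
  by_cases hf : f ∈ DD
  · exact ⟨f, hf, fun x => by simpa using hε⟩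
  · have hf' : f.1 (pt (code f)) = f.1 pinf := by
      by_contra h
      exact hf h
    let g : Cp XX.{u} := ⟨fun x => f.1 x + (ε / 2) * (bump (code f)).1 x,
      f.2.add (continuous_const.mul (bump (code f)).2)⟩
    refine ⟨g, ?_, ?_⟩
    · have hc : code g = code f := by
        funext y
        simp [g, code, bump_inr]
      show code g ∈ supp g
      rw [hc]
      show f.1 (pt (code f)) + (ε / 2) * (bump (code f)).1 (pt (code f)) ≠
        f.1 pinf + (ε / 2) * (bump (code f)).1 pinf
      rw [bump_self, bump_pinf, hf']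
      intro h
      linarith
    · intro x
      have h1 : f.1 x - g.1 x = - ((ε / 2) * (bump (code f)).1 x) := by
        simp [g]
      rw [h1, abs_neg, abs_mul, abs_of_pos (by linarith : (0 : ℝ) < ε / 2)]
      have := bump_le (code f) x
      nlinarith [abs_nonneg ((bump (code f)).1 x)]

theorem continuous_eval (x : XX.{u}) : Continuous (fun d : DD.{u} => d.1.1 x) :=
  (continuous_apply x).comp (continuous_subtype_val.comp continuous_subtype_val)

theorem closure_apply_eq {A : Set (DD.{u})} {y : DD.{u}} (hy : y ∈ closure A)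
    (x x' : XX.{u}) (h : ∀ a ∈ A, a.1.1 x = a.1.1 x') : y.1.1 x = y.1.1 x' := by
  have hcl : IsClosed {d : DD.{u} | d.1.1 x = d.1.1 x'} :=
    isClosed_eq (continuous_eval x) (continuous_eval x')
  exact closure_minimal (fun a ha => h a ha) hcl hy

theorem supp_subset {A : Set (DD.{u})} {y : DD.{u}} (hy : y ∈ closure A) : supp y.1 ⊆ CC A := by
  intro l hl
  by_contra hl'
  apply hl
  refine closure_apply_eq hy _ _ ?_
  intro a ha
  by_contra h
  exact hl' (mem_biUnion ha h)

theorem open_basic {U : Set (DD.{u})} (hU : IsOpen U) {y : DD.{u}} (hy : y ∈ U) :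
    ∃ (ε : ℝ), 0 < ε ∧ ∀ d : DD.{u}, (∀ x, |d.1.1 x - y.1.1 x| < ε) → d ∈ U := by
  have hind : IsInducing (fun d : DD.{u} => d.1.1) :=
    IsInducing.subtypeVal.comp IsInducing.subtypeVal
  obtain ⟨t, ht, rfl⟩ := hind.isOpen_iff.1 hU
  obtain ⟨I, v, hv, hsub⟩ := isOpen_pi_iff.1 ht _ hy
  have hex : ∀ x : XX.{u}, ∃ ε : ℝ, 0 < ε ∧ (x ∈ I → ∀ r : ℝ, |r - y.1.1 x| < ε → r ∈ v x) := by
    intro x
    by_cases hx : x ∈ I
    · obtain ⟨ho, hmem⟩ := hv x hx
      obtain ⟨ε, hε, hb⟩ := Metric.isOpen_iff.1 ho _ hmem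
      exact ⟨ε, hε, fun _ r hr => hb (by simpa [Real.dist_eq] using hr)⟩
    · exact ⟨1, one_pos, fun h => absurd h hx⟩
  choose e he hee using hex
  obtain ⟨ε, hε, hmin⟩ : ∃ ε : ℝ, 0 < ε ∧ ∀ x ∈ I, ε ≤ e x := by
    rcases I.eq_empty_or_nonempty with hI | hI
    · exact ⟨1, one_pos, by simp [hI]⟩
    · exact ⟨I.inf' hI e, (Finset.lt_inf'_iff hI).2 fun x _ => he x,
        fun x hx => Finset.inf'_le _ hx⟩
  refine ⟨ε, hε, fun d hd => hsub ?_⟩
  intro x hx
  exact hee x hx _ (lt_of_lt_of_le (hd x) (hmin x hx))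

theorem network (A : Set (DD.{u})) : IsExternalNetwork (closure A) (NN A) := by
  classical
  intro y hy U hU hyU
  obtain ⟨ε, hε, hd⟩ := open_basic hU hyU
  have hs := supp_subset hy
  obtain ⟨k, hk⟩ := exists_nat_one_div_lt (by positivity : 0 < ε / 2)
  set δ : ℝ := 1 / ((k : ℝ) + 1) with hδ
  have hδ0 : 0 < δ := by positivity
  obtain ⟨q, hq⟩ : ∃ q : ℚ, |y.1.1 pinf - q| < δ / 2 := by
    obtain ⟨q, h1, h2⟩ := exists_rat_btwn (show y.1.1 pinf - δ / 2 < y.1.1 pinf + δ / 2 by linarith)
    exact ⟨q, by rw [abs_lt]; constructor <;> linarith⟩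
  have hfin := finite_far y.1 (δ / 2) (by positivity)
  have hr : ∀ l : Lam.{u}, ∃ r : ℚ, |y.1.1 (pt l) - q - r| < δ := by
    intro l
    obtain ⟨r, h1, h2⟩ := exists_rat_btwn
      (show y.1.1 (pt l) - q - δ < y.1.1 (pt l) - q + δ by linarith)
    exact ⟨r, by rw [abs_lt]; constructor <;> linarith⟩
  choose r hr using hr
  let w : Lam.{u} →₀ ℚ := Finsupp.onFinset hfin.toFinset
    (fun l => if l ∈ hfin.toFinset then r l else 0) (by
      intro a ha
      by_contra h
      simp [h] at ha)
  have hwsupp : (w.support : Set Lam.{u}) ⊆ CC A := by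
    intro l hl
    have h1 : l ∈ hfin.toFinset := Finsupp.support_onFinset_subset hl
    rw [Set.Finite.mem_toFinset] at h1
    apply hs
    intro h
    have : (0 : ℝ) < |y.1.1 (pt l) - y.1.1 pinf| := lt_of_lt_of_le (by positivity) h1
    rw [h] at this
    simp at this
  have hbound : ∀ l : Lam.{u}, |y.1.1 (pt l) - (q + w l)| ≤ δ := by
    intro l
    by_cases hl : l ∈ hfin.toFinset
    · have : w l = r l := if_pos hl
      rw [this]
      have := hr l
      rw [show y.1.1 (pt l) - (q + r l) = y.1.1 (pt l) - q - r l by ring]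
      exact this.le
    · have h0 : w l = 0 := if_neg hl
      rw [h0]
      have h1 : |y.1.1 (pt l) - y.1.1 pinf| < δ / 2 := by
        rw [Set.Finite.mem_toFinset] at hl
        exact not_le.1 hl
      have h2 : y.1.1 (pt l) - (q + ((0 : ℚ) : ℝ)) =
          (y.1.1 (pt l) - y.1.1 pinf) + (y.1.1 pinf - q) := by
        push_cast; ring
      rw [h2]
      refine (abs_add_le _ _).trans ?_
      linarith
  refine ⟨box k q w (code y.1), ⟨k, q, w, code y.1, hs y.2, hwsupp, rfl⟩, ?_, ?_⟩
  · exact ⟨rfl, by rw [← hδ]; linarith, hbound⟩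
  · rintro d ⟨hdc, hdi, hdl⟩
    apply hd
    intro x
    rcases x with z | t
    · induction z using OnePoint.rec with
      | infty =>
        have h3 : d.1.1 pinf - y.1.1 pinf = (d.1.1 pinf - q) - (y.1.1 pinf - q) := by ring
        show |d.1.1 pinf - y.1.1 pinf| < ε
        rw [h3]
        refine (abs_sub _ _).trans_lt ?_
        rw [← hδ] at hdi
        linarith
      | coe l =>
        have h3 : d.1.1 (pt l) - y.1.1 (pt l) =
            (d.1.1 (pt l) - (q + w l)) - (y.1.1 (pt l) - (q + w l)) := by ring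
        show |d.1.1 (pt l) - y.1.1 (pt l)| < ε
        rw [h3]
        refine (abs_sub _ _).trans_lt ?_
        have h4 := hdl l
        have h5 := hbound l
        rw [← hδ] at h4
        linarith
    · have h3 : d.1.1 (Sum.inr t) = y.1.1 (Sum.inr t) := congrFun hdc t
      rw [h3]
      simpa using hε

theorem NN_mono {A B : Set (DD.{u})} (h : A ⊆ B) : NN A ⊆ NN B := by
  rintro n ⟨k, q, w, g, hg, hw, rfl⟩
  exact ⟨k, q, w, g, CC_mono h hg, hw.trans (CC_mono h), rfl⟩

theorem NN_sUnion (S : Set (Set (DD.{u}))) (hne : S.Nonempty) (hS : IsChain (· ⊆ ·) S) :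
    NN (⋃₀ S) = ⋃ A ∈ S, NN A := by
  apply Subset.antisymm
  · rintro n ⟨k, q, w, g, hg, hw, rfl⟩
    have hCC : CC (⋃₀ S) = ⋃ A ∈ S, CC A := by
      ext l
      simp only [CC, mem_iUnion, exists_prop, mem_sUnion]
      constructor
      · rintro ⟨a, ⟨A, hA, ha⟩, hl⟩
        exact ⟨A, hA, a, ha, hl⟩
      · rintro ⟨A, hA, a, ha, hl⟩
        exact ⟨a, ⟨A, hA, ha⟩, hl⟩
    have key : ∀ F : Finset Lam.{u}, (F : Set Lam.{u}) ⊆ CC (⋃₀ S) → ∃ A ∈ S,
        (F : Set Lam.{u}) ⊆ CC A := by
      classical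
      intro F
      induction F using Finset.induction_on with
      | empty =>
        intro _
        obtain ⟨A, hA⟩ := hne
        exact ⟨A, hA, by simp⟩
      | insert a F _ ih =>
        intro hF
        rw [Finset.coe_insert, insert_subset_iff] at hF
        obtain ⟨A, hA, hFA⟩ := ih hF.2
        have ha := hF.1
        rw [hCC] at ha
        simp only [mem_iUnion, exists_prop] at ha
        obtain ⟨B, hB, haB⟩ := ha
        rcases hS.total hA hB with h | h
        · exact ⟨B, hB, by
            rw [Finset.coe_insert, insert_subset_iff]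
            exact ⟨haB, hFA.trans (CC_mono h)⟩⟩
        · exact ⟨A, hA, by
            rw [Finset.coe_insert, insert_subset_iff]
            exact ⟨CC_mono h haB, hFA⟩⟩
    classical
    obtain ⟨A, hA, hFA⟩ := key (insert g w.support) (by
      rw [Finset.coe_insert, insert_subset_iff]
      exact ⟨hg, hw⟩)
    rw [Finset.coe_insert, insert_subset_iff] at hFA
    exact mem_biUnion hA ⟨k, q, w, g, hFA.1, hFA.2, rfl⟩
  · exact iUnion₂_subset fun A hA => NN_mono (subset_sUnion_of_mem hA)

theorem monolithic : IsMonotonicallyMonolithic (DD.{u}) :=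
  ⟨NN, fun A => ⟨mk_NN A, network A⟩, fun _ _ h => NN_mono h, NN_sUnion⟩

/-- the cylinder functions -/
noncomputable def cyl (n : ℕ) (s : Fin n → Bool) : Cp XX.{u} :=
  ⟨Sum.elim (fun _ => 0) (fun v : Yd.{u} => if ∀ i : Fin n, v.down i = s i then 1 else 0),
    continuous_const.sumElim continuous_of_discreteTopology⟩

/-- the point functions -/
noncomputable def chi (t : Yd.{u}) : Cp XX.{u} :=
  ⟨Sum.elim (fun _ => 0) (fun v : Yd.{u} => open Classical in if v = t then 1 else 0),
    continuous_const.sumElim continuous_of_discreteTopology⟩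

/-- the countable set of cylinder functions -/
def AA : Set (Cp XX.{u}) := range (fun p : (n : ℕ) × (Fin n → Bool) => cyl p.1 p.2)

theorem AA_countable : AA.{u}.Countable := countable_range _

theorem chi_mem (t : Yd.{u}) : chi t ∈ closure AA.{u} := by
  refine mem_closure_of_tendsto (b := Filter.atTop)
    (f := fun n : ℕ => (cyl n (fun i => t.down i) : Cp XX.{u})) ?_ ?_
  · rw [tendsto_subtype_rng, tendsto_pi_nhds]
    intro x
    rcases x with z | v
    · exact tendsto_const_nhds
    · by_cases h : v = t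
      · subst h
        have : ∀ n : ℕ, (cyl n (fun i => v.down i)).1 (Sum.inr v) = 1 := by
          intro n
          simp [cyl]
        have h2 : (chi v).1 (Sum.inr v) = 1 := by simp [chi]
        simp only [this]
        rw [h2]
        exact tendsto_const_nhds
      · obtain ⟨m, hm⟩ : ∃ m : ℕ, v.down m ≠ t.down m := by
          by_contra hcon
          push Not at hcon
          exact h (ULift.ext _ _ (funext hcon))
        have h2 : (chi t).1 (Sum.inr v) = 0 := by simp [chi, h]
        rw [h2]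
        refine tendsto_const_nhds.congr' ?_
        filter_upwards [Filter.eventually_gt_atTop m] with n hn
        have : ¬ ∀ i : Fin n, v.down i = t.down i := fun hall => hm (hall ⟨m, hn⟩)
        simp [cyl, this]
  · exact Filter.Eventually.of_forall fun n => ⟨⟨n, _⟩, rfl⟩

theorem isOpen_half (t : Yd.{u}) : IsOpen {f : Cp XX.{u} | 1 / 2 < f.1 (Sum.inr t)} :=
  isOpen_Ioi.preimage ((continuous_apply (Sum.inr t)).comp continuous_subtype_val)

theorem continuum_le (N : Set (Set (Cp XX.{u}))) (hN : IsExternalNetwork (closure AA.{u}) N) :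
    continuum.{u} ≤ #N := by
  have hch : ∀ t : Yd.{u}, ∃ n ∈ N, chi t ∈ n ∧ n ⊆ {f : Cp XX.{u} | 1 / 2 < f.1 (Sum.inr t)} := by
    intro t
    refine hN (chi t) (chi_mem t) _ (isOpen_half t) ?_
    show (1 : ℝ) / 2 < (chi t).1 (Sum.inr t)
    simp [chi]
    norm_num
  choose n hn hmem hsub using hch
  have hinj : Function.Injective (fun t : Yd.{u} => (⟨n t, hn t⟩ : N)) := by
    intro s t hst'
    have hst : n s = n t := congrArg Subtype.val hst'
    by_contra hne
    have h1 : chi s ∈ n t := hst ▸ hmem s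
    have h3 : (1 : ℝ) / 2 < (chi s).1 (Sum.inr t) := hsub t h1
    have h4 : (chi s).1 (Sum.inr t) = 0 := by simp [chi, Ne.symm hne]
    rw [h4] at h3
    norm_num at h3
  have h1 := Cardinal.mk_le_of_injective hinj
  have h2 : #(Yd.{u}) = continuum.{u} := by
    show #(ULift.{u} (ℕ → Bool)) = continuum.{u}
    simp
  rwa [h2] at h1

/-- There are a compact Hausdorff space `K` and a discrete space `Z` such that the topological sum
`X = K ⊕ Z` is Tychonoff, `C_p(X)` has a uniformly dense subspace which is monotonically monolithic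
and in particular monotonically `ω`-monolithic, some countable subset of `C_p(X)` has a closure
without external networks of fewer than continuum many sets, and `C_p(X)` is not monotonically
`ω`-monolithic. -/
theorem result : ∃ (K Z : Type u) (_ : TopologicalSpace K) (_ : TopologicalSpace Z),
    CompactSpace K ∧ T2Space K ∧ DiscreteTopology Z ∧ T35Space (K ⊕ Z) ∧
    (∃ D : Set (Cp (K ⊕ Z)), IsUniformlyDense D ∧ IsMonotonicallyMonolithic D ∧
      IsMonotonicallyOmegaMonolithic D) ∧
    (∃ A : Set (Cp (K ⊕ Z)), A.Countable ∧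
      ∀ N : Set (Set (Cp (K ⊕ Z))), IsExternalNetwork (closure A) N → continuum.{u} ≤ #N) ∧
    ¬ IsMonotonicallyOmegaMonolithic (Cp (K ⊕ Z)) := by
  refine ⟨OnePoint Lam.{u}, Yd.{u}, inferInstance, inferInstance, inferInstance, inferInstance,
    inferInstance, t35, ⟨DD, dense, monolithic, monolithic.omega⟩, ⟨AA, AA_countable, continuum_le⟩, ?_⟩
  rintro ⟨O, h, -, -⟩
  obtain ⟨h1, h2⟩ := h AA AA_countable
  exact absurd ((continuum_le _ h2).trans (Cardinal.mk_le_aleph0_iff.2 h1))
    (not_le.2 Cardinal.aleph0_lt_continuum)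

end Pool.Agent.Results.MP_440a64_gt.NotMonolithic
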